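import Pool.Agent.R978.UI.Stm

/-!
UI-C of MP_52097a_pr: colouring lemma, moment lemma, sum over maps, Hamming balls.
-/

set_option autoImplicit false

namespace R978UI.C

open Finset Pool.Agent.R980
open scoped Classical

/-- three colours suffice for a partial injection without fixed points -/
lemma colour {α : Type} (F : α → α) (Q : Finset α) (hinj : Set.InjOn F Q) (hne : ∀ e ∈ Q, F e ≠ e) :
    ∃ c : α → Fin 3, ∀ e ∈ Q, F e ∈ Q → c e ≠ c (F e) := by
  induction Q using Finset.induction_on with
  | empty => exact ⟨fun _ => 0, fun e he => absurd he (Finset.notMem_empty e)⟩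
  | insert a Q ha ih =>
    obtain ⟨c, hc⟩ := ih (hinj.mono (by simp)) fun e he => hne e (mem_insert_of_mem he)
    -- colour of the preimage of `a`
    have hpre : ∃ t : Fin 3, ∀ e ∈ Q, F e = a → c e = t := by
      by_cases h : ∃ e ∈ Q, F e = a
      · obtain ⟨e, he, hea⟩ := h
        refine ⟨c e, fun e' he' hea' => ?_⟩
        have : e' = e := hinj (by simp [he']) (by simp [he]) (hea'.trans hea.symm)
        rw [this]
      · exact ⟨0, fun e he hea => absurd ⟨e, he, hea⟩ h⟩
    obtain ⟨t, ht⟩ := hpre
    have h3 : ∀ t s : Fin 3, ∃ k : Fin 3, k ≠ t ∧ k ≠ s := by decide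
    obtain ⟨k, hk1, hk2⟩ := h3 t (c (F a))
    refine ⟨Function.update c a k, ?_⟩
    intro e he hFe
    rw [mem_insert] at he hFe
    by_cases hea : e = a
    · subst hea
      have hFne : F e ≠ e := hne e (mem_insert_self e Q)
      rw [Function.update_self, Function.update_of_ne hFne]
      exact hk2
    · have heQ : e ∈ Q := he.resolve_left hea
      rw [Function.update_of_ne hea]
      by_cases hFa : F e = a
      · rw [hFa, Function.update_self, ht e heQ hFa]
        exact hk1.symm
      · rw [Function.update_of_ne hFa]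
        exact hc e heQ (hFe.resolve_left hFa)

lemma bex_two {E : Type} [Fintype E] [DecidableEq E] (p θ : ℝ) (a b : E) (hab : a ≠ b) :
    bex p (fun x : E → Bool => if x a = x b then (if x a = true then θ else 1) else 0) =
      θ * p ^ 2 + (1 - p) ^ 2 := by
  have h1 : (fun x : E → Bool => if x a = x b then (if x a = true then θ else 1) else (0:ℝ)) =
      fun x => θ * (∏ e, (fun (e : E) (c : Bool) => if e = a ∨ e = b then (if c = true then (1:ℝ) else 0) else 1) e (x e)) +
        ∏ e, (fun (e : E) (c : Bool) => if e = a ∨ e = b then (if c = true then (0:ℝ) else 1) else 1) e (x e) := by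
    funext x
    have hp : ∀ g : E → ℝ, (∀ e, e ≠ a → e ≠ b → g e = 1) → ∏ e, g e = g a * g b := by
      intro g hg
      exact Finset.prod_eq_mul a b hab (fun e _ he => hg e he.1 he.2) (fun h => absurd (mem_univ _) h)
        (fun h => absurd (mem_univ _) h)
    rw [hp _ (fun e h1 h2 => by simp [h1, h2]), hp _ (fun e h1 h2 => by simp [h1, h2])]
    cases x a <;> cases x b <;> simp
  rw [h1, bex_add, bex_mul,
    bex_prod p (fun (e : E) (c : Bool) => if e = a ∨ e = b then (if c = true then (1:ℝ) else 0) else 1),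
    bex_prod p (fun (e : E) (c : Bool) => if e = a ∨ e = b then (if c = true then (0:ℝ) else 1) else 1)]
  have hp : ∀ g : E → ℝ, (∀ e, e ≠ a → e ≠ b → g e = 1) → ∏ e, g e = g a * g b := by
    intro g hg
    exact Finset.prod_eq_mul a b hab (fun e _ he => hg e he.1 he.2) (fun h => absurd (mem_univ _) h)
      (fun h => absurd (mem_univ _) h)
  rw [hp _ (fun e h1 h2 => by simp [h1, h2]), hp _ (fun e h1 h2 => by simp [h1, h2])]
  simp
  ring

/-- the moment lemma -/
lemma mgf (hI : StmtIndep) {E : Type} [Fintype E] [DecidableEq E] (p θ : ℝ) (F : E → E) (R : Finset E)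
    (hinj : Set.InjOn F R) (hd : ∀ e ∈ R, F e ∉ R) :
    bex p (fun x : E → Bool => ∏ e ∈ R, (if x e = x (F e) then (if x e = true then θ else 1) else 0)) =
      (θ * p ^ 2 + (1 - p) ^ 2) ^ R.card := by
  induction R using Finset.induction_on with
  | empty => simp [bex_const]
  | insert a R ha ih =>
    have ih' := ih (hinj.mono (by simp)) fun e he h => hd e (mem_insert_of_mem he) (mem_insert_of_mem h)
    have hFa : F a ∉ insert a R := hd a (mem_insert_self a R)
    have hne : a ≠ F a := fun h => hFa (by rw [← h]; exact mem_insert_self a R)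
    simp only [Finset.prod_insert ha]
    rw [hI E inferInstance inferInstance p {a, F a}
      (fun x : E → Bool => if x a = x (F a) then (if x a = true then θ else 1) else 0)
      (fun x : E → Bool => ∏ e ∈ R, (if x e = x (F e) then (if x e = true then θ else 1) else 0)) ?_ ?_,
      ih', bex_two p θ a (F a) hne, Finset.card_insert_of_notMem ha]
    · ring
    · intro x y h
      rw [h a (by simp), h (F a) (by simp)]
    · intro x y h
      refine Finset.prod_congr rfl fun e he => ?_
      have h1 : e ∉ ({a, F a} : Finset E) := by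
        intro h1
        rw [mem_insert, mem_singleton] at h1
        rcases h1 with h1 | h1
        · exact ha (h1 ▸ he)
        · exact hFa (h1 ▸ mem_insert_of_mem he)
      have h2 : F e ∉ ({a, F a} : Finset E) := by
        intro h2
        rw [mem_insert, mem_singleton] at h2
        rcases h2 with h2 | h2
        · exact hd e (mem_insert_of_mem he) (h2 ▸ mem_insert_self _ _)
        · have := hinj (by simp [he]) (by simp) h2
          exact ha (this ▸ he)
      rw [h e h1, h (F e) h2]

/-- the sum over all maps of `n ^ (-number of moved points)` -/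
lemma sum_maps (n : ℕ) (hn : 1 ≤ n) :
    ∑ f : Fin n → Fin n, ((n:ℝ)⁻¹) ^ (univ.filter fun v => f v ≠ v).card ≤ 2 ^ n := by
  have h := Finset.prod_univ_sum (fun _ : Fin n => (univ : Finset (Fin n)))
    (fun v w => if w ≠ v then (n:ℝ)⁻¹ else 1)
  rw [Fintype.piFinset_univ] at h
  have h1 : ∀ f : Fin n → Fin n, ((n:ℝ)⁻¹) ^ (univ.filter fun v => f v ≠ v).card =
      ∏ v, (if f v ≠ v then (n:ℝ)⁻¹ else 1) := by
    intro f
    rw [Finset.prod_ite, prod_const, prod_const_one, mul_one]
  simp only [h1]
  rw [← h]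
  have h2 : ∀ v : Fin n, ∑ w : Fin n, (if w ≠ v then (n:ℝ)⁻¹ else 1) ≤ 2 := by
    intro v
    rw [Finset.sum_ite, sum_const, sum_const, Finset.filter_ne', Finset.card_erase_of_mem (mem_univ v),
      card_univ, Fintype.card_fin]
    have h3 : (univ.filter fun w : Fin n => ¬ w ≠ v) = {v} := by
      ext w; simp
    rw [h3, card_singleton, nsmul_eq_mul, nsmul_eq_mul, Nat.cast_sub hn]
    have hn' : (0:ℝ) < n := by exact_mod_cast hn
    rw [sub_mul, mul_inv_cancel₀ hn'.ne']
    have : 0 < (n:ℝ)⁻¹ := by positivity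
    push_cast
    linarith
  calc ∏ v : Fin n, ∑ w : Fin n, (if w ≠ v then (n:ℝ)⁻¹ else 1) ≤ ∏ _v : Fin n, (2:ℝ) := by
        refine Finset.prod_le_prod (fun v _ => Finset.sum_nonneg fun w _ => by positivity) fun v _ => h2 v
    _ = 2 ^ n := by simp

/-- Hamming balls -/
lemma ball_card {α : Type} [DecidableEq α] (A : Finset α) (r : ℕ) :
    ((A.powerset.filter fun D => D.card ≤ r).card : ℝ) ≤ (5 / 4) ^ A.card * 4 ^ r := by
  have h1 : ∑ D ∈ A.powerset, ((1:ℝ) / 4) ^ D.card = (5 / 4) ^ A.card := by
    have := Finset.sum_pow_mul_eq_add_pow ((1:ℝ) / 4) 1 A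
    simp only [one_pow, mul_one] at this
    rw [this]
    norm_num
  have h2 : ((A.powerset.filter fun D => D.card ≤ r).card : ℝ) * ((1:ℝ) / 4) ^ r ≤
      ∑ D ∈ A.powerset, ((1:ℝ) / 4) ^ D.card := by
    rw [← nsmul_eq_mul]
    refine (Finset.card_nsmul_le_sum _ (fun D => ((1:ℝ) / 4) ^ D.card) _ fun D hD => ?_).trans
      (Finset.sum_le_sum_of_subset_of_nonneg (filter_subset _ _) fun D _ _ => by positivity)
    rw [mem_filter] at hD
    exact pow_le_pow_of_le_one (by norm_num) (by norm_num) hD.2
  rw [h1] at h2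
  have h4 : (4:ℝ) ^ r * ((1:ℝ) / 4) ^ r = 1 := by
    rw [← mul_pow]; norm_num
  have h5 : (0:ℝ) < 4 ^ r := by positivity
  calc ((A.powerset.filter fun D => D.card ≤ r).card : ℝ) =
        ((A.powerset.filter fun D => D.card ≤ r).card : ℝ) * ((1:ℝ) / 4) ^ r * 4 ^ r := by
          rw [mul_assoc, mul_comm (((1:ℝ) / 4) ^ r), h4, mul_one]
    _ ≤ _ := mul_le_mul_of_nonneg_right h2 h5.le

end R978UI.C
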