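import Pool.Agent.R662.UC.C1

/-!
UI-C of MP_52097a_pr: the probability bound for a fixed map.
-/

set_option autoImplicit false

namespace R978UI.C

open Finset Pool.Agent.R980
open scoped Classical

variable {n : ℕ}

/-- the image of a pair -/
noncomputable def Fe (f : Fin n → Fin n) (e : Edge n) : Edge n :=
  if h : ¬ (e.1.map f).IsDiag then ⟨e.1.map f, h⟩ else e

/-- pairs outside `B` meeting `M` -/
noncomputable def Em (B M : Finset (Fin n)) : Finset (Edge n) :=
  univ.filter fun e => (∀ v ∈ e.1, v ∉ B) ∧ ∃ v ∈ e.1, v ∈ M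

/-- moved points -/
noncomputable def mv (f : Fin n → Fin n) : Finset (Fin n) := univ.filter fun v => f v ≠ v

/-- admissible maps -/
def Valid (B : Finset (Fin n)) (f : Fin n → Fin n) : Prop :=
  (∀ u v, u ∉ B → v ∉ B → f u = f v → u = v) ∧ ∀ v ∈ B, f v = v

/-- the event -/
def Ev (B : Finset (Fin n)) (f : Fin n → Fin n) (x : Edge n → Bool) : Prop :=
  ∀ e : Edge n, (∀ v ∈ e.1, v ∉ B) → x e = x (Fe f e)

/-- present pairs -/
def pr (x : Edge n → Bool) (R : Finset (Edge n)) : ℕ := (R.filter fun e => x e = true).card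

lemma mk_edge {a b : Fin n} (h : a ≠ b) : ¬ (s(a, b) : Sym2 (Fin n)).IsDiag := by
  simpa using h

lemma edge_ind (e : Edge n) : ∃ a b : Fin n, ∃ h : a ≠ b, e = ⟨s(a, b), mk_edge h⟩ := by
  obtain ⟨e, he⟩ := e
  induction e with
  | _ a b =>
  refine ⟨a, b, ?_, rfl⟩
  simpa using he

lemma Fe_mk {B : Finset (Fin n)} {f : Fin n → Fin n} (hv : Valid B f) {a b : Fin n} (h : a ≠ b)
    (ha : a ∉ B) (hb : b ∉ B) : (Fe f ⟨s(a, b), mk_edge h⟩).1 = s(f a, f b) := by
  unfold Fe
  have h1 : ¬ ((s(a, b) : Sym2 (Fin n)).map f).IsDiag := by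
    rw [Sym2.map_mk]
    simp only [Sym2.mk_isDiag_iff]
    exact fun h2 => h (hv.1 a b ha hb h2)
  rw [dif_pos h1]
  rfl

lemma Fe_inj {B : Finset (Fin n)} {f : Fin n → Fin n} (hv : Valid B f) (M : Finset (Fin n)) :
    Set.InjOn (Fe f) (Em B M) := by
  intro e he e' he' h
  obtain ⟨a, b, hab, rfl⟩ := edge_ind e
  obtain ⟨c, d, hcd, rfl⟩ := edge_ind e'
  simp only [Em, coe_filter, mem_univ, true_and, Set.mem_ofPred_eq, Sym2.mem_iff, forall_eq_or_imp,
    forall_eq] at he he'
  have h1 := congrArg Subtype.val h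
  rw [Fe_mk hv hab he.1.1 he.1.2, Fe_mk hv hcd he'.1.1 he'.1.2, Sym2.eq_iff] at h1
  apply Subtype.ext
  simp only
  rw [Sym2.eq_iff]
  rcases h1 with ⟨h1, h2⟩ | ⟨h1, h2⟩
  · left; exact ⟨hv.1 _ _ he.1.1 he'.1.1 h1, hv.1 _ _ he.1.2 he'.1.2 h2⟩
  · right; exact ⟨hv.1 _ _ he.1.1 he'.1.2 h1, hv.1 _ _ he.1.2 he'.1.1 h2⟩

/-- the number of fixed pairs -/
lemma fixed_card {B : Finset (Fin n)} {f : Fin n → Fin n} (hv : Valid B f) :
    ((Em B (mv f)).filter fun e => Fe f e = e).card ≤ (mv f).card := by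
  have h1 : ((Em B (mv f)).filter fun e => Fe f e = e).card =
      (((Em B (mv f)).filter fun e => Fe f e = e).image Subtype.val).card :=
    (Finset.card_image_of_injective _ Subtype.val_injective).symm
  rw [h1]
  refine (Finset.card_le_card ?_).trans (Finset.card_image_le (s := mv f) (f := fun u => s(u, f u)))
  intro z hz
  rw [mem_image] at hz
  obtain ⟨e, he, rfl⟩ := hz
  rw [mem_filter] at he
  obtain ⟨a, b, hab, rfl⟩ := edge_ind e
  obtain ⟨he1, he2⟩ := he
  simp only [Em, mem_filter, mem_univ, true_and, Sym2.mem_iff, forall_eq_or_imp,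
    forall_eq, exists_eq_or_imp, exists_eq_left] at he1
  have h2 := congrArg Subtype.val he2
  rw [Fe_mk hv hab he1.1.1 he1.1.2, Sym2.eq_iff] at h2
  rw [mem_image]
  rcases he1.2 with h3 | h3
  · refine ⟨a, h3, ?_⟩
    have h4 : f a ≠ a := by simpa [mv] using h3
    rcases h2 with h2 | h2
    · exact absurd h2.1 h4
    · simp only; rw [h2.1]
  · refine ⟨b, h3, ?_⟩
    have h4 : f b ≠ b := by simpa [mv] using h3
    rcases h2 with h2 | h2
    · exact absurd h2.2 h4
    · simp only; rw [h2.2, Sym2.eq_swap]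

/-- upper bound for the number of pairs -/
lemma Em_card_le (B M : Finset (Fin n)) : (Em B M).card ≤ M.card * n := by
  have h1 : (Em B M).card = ((Em B M).image Subtype.val).card :=
    (Finset.card_image_of_injective _ Subtype.val_injective).symm
  rw [h1]
  have h2 : (M ×ˢ (univ : Finset (Fin n))).card = M.card * n := by
    rw [card_product, card_univ, Fintype.card_fin]
  rw [← h2]
  refine (Finset.card_le_card ?_).trans
    (Finset.card_image_le (s := M ×ˢ (univ : Finset (Fin n))) (f := fun q => s(q.1, q.2)))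
  intro z hz
  rw [mem_image] at hz
  obtain ⟨e, he, rfl⟩ := hz
  obtain ⟨a, b, hab, rfl⟩ := edge_ind e
  simp only [Em, mem_filter, mem_univ, true_and, Sym2.mem_iff, forall_eq_or_imp,
    forall_eq, exists_eq_or_imp, exists_eq_left] at he
  rw [mem_image]
  rcases he.2 with h3 | h3
  · exact ⟨(a, b), by simp [h3], rfl⟩
  · exact ⟨(b, a), by simp [h3], Sym2.eq_swap⟩

/-- lower bound for the number of pairs -/
lemma Em_card_ge (B M : Finset (Fin n)) (hM : Disjoint M B) :
    M.card * (n - B.card - 1) ≤ 2 * (Em B M).card := by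
  have h1 : (Em B M).card = ((Em B M).image Subtype.val).card :=
    (Finset.card_image_of_injective _ Subtype.val_injective).symm
  rw [h1]
  set P : Finset (Fin n × Fin n) := (M ×ˢ Bᶜ).filter fun q => q.1 ≠ q.2 with hP
  have hPc : P.card = M.card * (n - B.card - 1) := by
    have h2 : P = M.biUnion fun u => (Bᶜ.erase u).image fun v => (u, v) := by
      ext ⟨u, v⟩
      simp only [hP, mem_filter, mem_product, mem_biUnion, mem_image, mem_erase, Prod.mk.injEq]
      constructor
      · rintro ⟨⟨h3, h4⟩, h5⟩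
        exact ⟨u, h3, v, ⟨fun h => h5 h.symm, h4⟩, rfl, rfl⟩
      · rintro ⟨u', h3, v', ⟨h5, h4⟩, rfl, rfl⟩
        exact ⟨⟨h3, h4⟩, fun h => h5 h.symm⟩
    rw [h2, card_biUnion]
    · have h3 : ∀ u ∈ M, ((Bᶜ.erase u).image fun v => (u, v)).card = n - B.card - 1 := by
        intro u hu
        rw [card_image_of_injective _ (Prod.mk_right_injective u), card_erase_of_mem, card_compl,
          Fintype.card_fin]
        rw [mem_compl]
        exact Finset.disjoint_left.mp hM hu
      rw [sum_congr rfl h3, sum_const, smul_eq_mul]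
    · intro u _ u' _ huu
      rw [Function.onFun, Finset.disjoint_left]
      intro q hq hq'
      rw [mem_image] at hq hq'
      obtain ⟨v, _, rfl⟩ := hq
      obtain ⟨v', _, h⟩ := hq'
      exact huu (Prod.mk.inj h).1.symm
  rw [← hPc]
  have h2 : P.card ≤ 2 * (P.image fun q => (s(q.1, q.2) : Sym2 (Fin n))).card := by
    refine Finset.card_le_mul_card_image P 2 fun z hz => ?_
    rw [mem_image] at hz
    obtain ⟨⟨a, b⟩, _, rfl⟩ := hz
    refine (Finset.card_le_card (t := {(a, b), (b, a)}) ?_).trans Finset.card_le_two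
    intro q hq
    rw [mem_filter] at hq
    have h3 := hq.2
    simp only at h3
    rw [Sym2.eq_iff] at h3
    rw [mem_insert, mem_singleton]
    rcases h3 with h3 | h3
    · left; exact Prod.ext h3.1 h3.2
    · right; exact Prod.ext h3.1 h3.2
  refine h2.trans (Nat.mul_le_mul_left 2 (card_le_card ?_))
  intro z hz
  rw [mem_image] at hz ⊢
  obtain ⟨⟨a, b⟩, hq, rfl⟩ := hz
  simp only [hP, mem_filter, mem_product, mem_compl] at hq
  refine ⟨⟨s(a, b), mk_edge hq.2⟩, ?_, rfl⟩
  simp only [Em, mem_filter, mem_univ, true_and, Sym2.mem_iff, forall_eq_or_imp,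
    forall_eq, exists_eq_or_imp, exists_eq_left]
  exact ⟨⟨Finset.disjoint_left.mp hM hq.1.1, hq.1.2⟩, Or.inl hq.1.1⟩

/-- bound for one colour class -/
lemma class_bound (hI : StmtIndep) {p : ℝ} (h0 : 0 ≤ p) (h1 : p ≤ 1) {B : Finset (Fin n)}
    {f : Fin n → Fin n} (hv : Valid B f) (R : Finset (Edge n)) (hR : R ⊆ Em B (mv f))
    (hd : ∀ e ∈ R, Fe f e ∉ R) (θ z : ℝ) (hθ : 1 ≤ θ) :
    bex p (fun x : Edge n → Bool => if Ev B f x ∧ z ≤ (pr x R : ℝ) then 1 else 0) ≤
      θ ^ (-z) * (θ * p ^ 2 + (1 - p) ^ 2) ^ R.card := by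
  rw [← mgf hI p θ (Fe f) R ((Fe_inj hv (mv f)).mono (by exact_mod_cast hR)) hd, ← bex_mul]
  refine bex_mono h0 h1 fun x => ?_
  have hθ0 : 0 < θ := by linarith
  have hpos : 0 ≤ ∏ e ∈ R, (if x e = x (Fe f e) then (if x e = true then θ else 1) else 0) :=
    Finset.prod_nonneg fun e _ => by split_ifs <;> positivity
  split_ifs with h
  · have h2 : ∏ e ∈ R, (if x e = x (Fe f e) then (if x e = true then θ else 1) else 0) =
        θ ^ (pr x R) := by
      rw [pr, Finset.prod_congr rfl (g := fun e => if x e = true then θ else 1) fun e he => ?_]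
      · rw [Finset.prod_ite, prod_const, prod_const_one, mul_one]
      · have h3 := hR he
        simp only [Em, mem_filter, mem_univ, true_and] at h3
        rw [if_pos (h.1 e h3.1)]
    rw [h2, ← Real.rpow_natCast θ (pr x R), ← Real.rpow_add hθ0]
    apply Real.one_le_rpow hθ
    linarith [h.2]
  · have : 0 ≤ θ ^ (-z) := (Real.rpow_pos_of_pos hθ0 _).le
    exact mul_nonneg this hpos

/-- the moved pairs -/
noncomputable def Qs (B : Finset (Fin n)) (f : Fin n → Fin n) : Finset (Edge n) :=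
  (Em B (mv f)).filter fun e => Fe f e ≠ e

lemma Qs_card {B : Finset (Fin n)} {f : Fin n → Fin n} (hv : Valid B f) :
    (Em B (mv f)).card ≤ (Qs B f).card + (mv f).card := by
  have h := Finset.card_filter_add_card_filter_not (s := Em B (mv f)) (fun e => Fe f e = e)
  have h2 := fixed_card hv
  unfold Qs
  have h3 : ((Em B (mv f)).filter fun e => ¬ Fe f e = e).card = ((Em B (mv f)).filter fun e => Fe f e ≠ e).card := rfl
  omega

lemma Qs_pr {B : Finset (Fin n)} {f : Fin n → Fin n} (hv : Valid B f) (x : Edge n → Bool) :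
    pr x (Em B (mv f)) ≤ pr x (Qs B f) + (mv f).card := by
  have h2 := fixed_card hv
  have h3 : (Em B (mv f)).filter (fun e => x e = true) ⊆
      (Qs B f).filter (fun e => x e = true) ∪ ((Em B (mv f)).filter fun e => Fe f e = e) := by
    intro e he
    rw [mem_filter] at he
    rw [mem_union]
    by_cases h : Fe f e = e
    · right; rw [mem_filter]; exact ⟨he.1, h⟩
    · left; rw [mem_filter, Qs, mem_filter]; exact ⟨⟨he.1, h⟩, he.2⟩
  have h4 := (card_le_card h3).trans (card_union_le _ _)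
  unfold pr
  omega

lemma classes {B : Finset (Fin n)} {f : Fin n → Fin n} (hv : Valid B f) :
    ∃ R : Fin 3 → Finset (Edge n), (∀ i, R i ⊆ Em B (mv f)) ∧ (∀ i, ∀ e ∈ R i, Fe f e ∉ R i) ∧
      (Qs B f).card = ∑ i, (R i).card ∧ ∀ x, pr x (Qs B f) = ∑ i, pr x (R i) := by
  obtain ⟨c, hc⟩ := colour (Fe f) (Qs B f) ((Fe_inj hv (mv f)).mono (by
    rw [Qs]; exact_mod_cast filter_subset _ _)) (fun e he => (mem_filter.mp he).2)
  refine ⟨fun i => (Qs B f).filter fun e => c e = i, fun i => (filter_subset _ _).trans (filter_subset _ _),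
    ?_, ?_, ?_⟩
  · intro i e he h
    rw [mem_filter] at he h
    exact hc e he.1 h.1 (he.2.trans h.2.symm)
  · exact Finset.card_eq_sum_card_fiberwise (f := c) (t := univ) (fun e _ => mem_univ _)
  · intro x
    unfold pr
    rw [Finset.card_eq_sum_card_fiberwise (f := c) (t := univ) (fun e _ => mem_univ _)]
    refine Finset.sum_congr rfl fun i _ => ?_
    rw [filter_filter, filter_filter]
    congr 1
    ext e
    simp only [mem_filter]
    tauto

lemma dense_bound (hI : StmtIndep) {p : ℝ} (h0 : 0 ≤ p) (h1 : p ≤ 1 / 2) {B : Finset (Fin n)}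
    {f : Fin n → Fin n} (hv : Valid B f) :
    bex p (fun x : Edge n → Bool => if Ev B f x then 1 else 0) ≤
      Real.exp (-(p * (((Em B (mv f)).card : ℝ) - (mv f).card) / 3)) := by
  obtain ⟨R, hR1, hR2, hR3, _⟩ := classes hv
  have hQ := Qs_card hv
  obtain ⟨i, hi⟩ : ∃ i, (Qs B f).card ≤ 3 * (R i).card := by
    by_contra hcon
    push Not at hcon
    rw [hR3, Fin.sum_univ_three] at hcon
    have a0 := hcon 0
    have a1 := hcon 1
    have a2 := hcon 2
    omega
  have hb := class_bound hI h0 (by linarith : p ≤ 1) hv (R i) (hR1 i) (hR2 i) 1 0 le_rfl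
  refine (bex_mono h0 (by linarith) fun x => ?_).trans (hb.trans ?_)
  · by_cases h : Ev B f x
    · rw [if_pos h, if_pos ⟨h, by positivity⟩]
    · rw [if_neg h, if_neg fun h2 => h h2.1]
  · rw [Real.one_rpow, one_mul, one_mul]
    have h2 : p ^ 2 + (1 - p) ^ 2 ≤ Real.exp (-p) := by
      have := Real.add_one_le_exp (-p)
      nlinarith
    have h3 : 0 ≤ p ^ 2 + (1 - p) ^ 2 := by positivity
    refine (pow_le_pow_left₀ h3 h2 _).trans ?_
    rw [← Real.exp_nat_mul]
    apply Real.exp_le_exp.mpr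
    have h4 : ((Em B (mv f)).card : ℝ) ≤ 3 * (R i).card + (mv f).card := by
      exact_mod_cast hQ.trans (by omega)
    nlinarith

lemma sparse_bound (hI : StmtIndep) {p : ℝ} (h0 : 0 < p) (h1 : p ≤ 1 / 100) {B : Finset (Fin n)}
    {f : Fin n → Fin n} (hv : Valid B f) (y : ℝ) :
    bex p (fun x : Edge n → Bool => if Ev B f x ∧ y ≤ (pr x (Em B (mv f)) : ℝ) then 1 else 0) ≤
      3 * ((1 / (100 * p)) ^ (-((y - (mv f).card) / 3)) * Real.exp (p / 100 * (n * (mv f).card))) := by
  obtain ⟨R, hR1, hR2, hR3, hR4⟩ := classes hv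
  set θ : ℝ := 1 / (100 * p) with hθ
  set z : ℝ := (y - (mv f).card) / 3 with hz
  have hθ1 : 1 ≤ θ := by
    rw [hθ, le_div_iff₀ (by positivity)]
    linarith
  have hθ0 : 0 < θ := by linarith
  have hb := fun i => class_bound hI h0.le (by linarith : p ≤ 1) hv (R i) (hR1 i) (hR2 i) θ z hθ1
  have hb2 : ∀ i, bex p (fun x : Edge n → Bool => if Ev B f x ∧ z ≤ (pr x (R i) : ℝ) then 1 else 0) ≤
      θ ^ (-z) * Real.exp (p / 100 * (n * (mv f).card)) := by
    intro i
    refine (hb i).trans (mul_le_mul_of_nonneg_left ?_ (Real.rpow_pos_of_pos hθ0 _).le)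
    have h2 : θ * p ^ 2 + (1 - p) ^ 2 ≤ Real.exp (p / 100) := by
      have h3 := Real.add_one_le_exp (p / 100)
      have h4 : θ * p ^ 2 = p / 100 := by
        rw [hθ]; field_simp
      rw [h4]
      nlinarith
    have h3 : 0 ≤ θ * p ^ 2 + (1 - p) ^ 2 := by positivity
    refine (pow_le_pow_left₀ h3 h2 _).trans ?_
    rw [← Real.exp_nat_mul]
    apply Real.exp_le_exp.mpr
    have h4 : ((R i).card : ℝ) ≤ n * (mv f).card := by
      have := (card_le_card (hR1 i)).trans (Em_card_le B (mv f))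
      rw [mul_comm] at this
      exact_mod_cast this
    have h5 : 0 ≤ p / 100 := by positivity
    nlinarith
  have hsum : bex p (fun x : Edge n → Bool => if Ev B f x ∧ y ≤ (pr x (Em B (mv f)) : ℝ) then 1 else 0) ≤
      bex p (fun x : Edge n → Bool => (if Ev B f x ∧ z ≤ (pr x (R 0) : ℝ) then 1 else 0) +
        ((if Ev B f x ∧ z ≤ (pr x (R 1) : ℝ) then 1 else 0) +
        (if Ev B f x ∧ z ≤ (pr x (R 2) : ℝ) then 1 else 0))) := by
    refine bex_mono h0.le (by linarith) fun x => ?_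
    by_cases h : Ev B f x ∧ y ≤ (pr x (Em B (mv f)) : ℝ)
    · rw [if_pos h]
      have h5 := Qs_pr hv x
      have h6 := hR4 x
      rw [Fin.sum_univ_three] at h6
      have h7 : y ≤ (pr x (R 0) : ℝ) + pr x (R 1) + pr x (R 2) + (mv f).card := by
        have h8 : ((pr x (Em B (mv f)) : ℕ) : ℝ) ≤ (pr x (R 0) : ℝ) + pr x (R 1) + pr x (R 2) + (mv f).card := by
          rw [h6] at h5
          exact_mod_cast h5
        linarith [h.2]
      have h9 : z ≤ (pr x (R 0) : ℝ) ∨ z ≤ (pr x (R 1) : ℝ) ∨ z ≤ (pr x (R 2) : ℝ) := by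
        by_contra hcon
        push Not at hcon
        obtain ⟨c0, c1, c2⟩ := hcon
        rw [hz] at c0 c1 c2
        linarith
      have n0 : (0:ℝ) ≤ (if Ev B f x ∧ z ≤ (pr x (R 0) : ℝ) then 1 else 0) := by split_ifs <;> norm_num
      have n1 : (0:ℝ) ≤ (if Ev B f x ∧ z ≤ (pr x (R 1) : ℝ) then 1 else 0) := by split_ifs <;> norm_num
      have n2 : (0:ℝ) ≤ (if Ev B f x ∧ z ≤ (pr x (R 2) : ℝ) then 1 else 0) := by split_ifs <;> norm_num
      rcases h9 with h9 | h9 | h9
      · rw [if_pos (⟨h.1, h9⟩ : Ev B f x ∧ z ≤ (pr x (R 0) : ℝ))]; linarith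
      · rw [if_pos (⟨h.1, h9⟩ : Ev B f x ∧ z ≤ (pr x (R 1) : ℝ))]; linarith
      · rw [if_pos (⟨h.1, h9⟩ : Ev B f x ∧ z ≤ (pr x (R 2) : ℝ))]; linarith
    · rw [if_neg h]
      have n0 : (0:ℝ) ≤ (if Ev B f x ∧ z ≤ (pr x (R 0) : ℝ) then 1 else 0) := by split_ifs <;> norm_num
      have n1 : (0:ℝ) ≤ (if Ev B f x ∧ z ≤ (pr x (R 1) : ℝ) then 1 else 0) := by split_ifs <;> norm_num
      have n2 : (0:ℝ) ≤ (if Ev B f x ∧ z ≤ (pr x (R 2) : ℝ) then 1 else 0) := by split_ifs <;> norm_num
      linarith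
  refine hsum.trans ?_
  rw [bex_add, bex_add]
  have a0 := hb2 0
  have a1 := hb2 1
  have a2 := hb2 2
  linarith

end R978UI.C
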