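import Pool.Agent.R662.UC.C2

/-!
UI-C of MP_52097a_pr: union bound and conclusion.
-/

set_option autoImplicit false

namespace R978UI.C

open Finset Pool.Agent.R980
open scoped Classical

variable {n : ℕ}

lemma em_real (B M : Finset (Fin n)) (hM : Disjoint M B) (hB : B.card ≤ n / 10) (hn : 10 ≤ n) :
    (0.4 : ℝ) * n * M.card ≤ (Em B M).card := by
  have h := Em_card_ge B M hM
  have h2 : ((M.card * (n - B.card - 1) : ℕ) : ℝ) ≤ ((2 * (Em B M).card : ℕ) : ℝ) := by exact_mod_cast h
  have h3 : (0.8 : ℝ) * n ≤ ((n - B.card - 1 : ℕ) : ℝ) := by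
    have h4 : 10 * B.card ≤ n := by omega
    have h5 : B.card + 1 ≤ n := by omega
    have h6 : ((n - B.card - 1 : ℕ) : ℝ) = n - B.card - 1 := by
      rw [Nat.sub_sub, Nat.cast_sub h5]; push_cast; ring
    have h7 : (10:ℝ) * B.card ≤ n := by exact_mod_cast h4
    have h8 : (10:ℝ) ≤ n := by exact_mod_cast hn
    rw [h6]
    linarith
  push_cast at h2
  have h9 : (0:ℝ) ≤ M.card := Nat.cast_nonneg _
  nlinarith

/-- conditions on the size -/
def Good (n : ℕ) : Prop := 10 ^ 4 ≤ n ∧ 20 ≤ Real.log n ∧ 10 * (Real.log n + 600) ≤ Real.sqrt n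

lemma mv_disj {B : Finset (Fin n)} {f : Fin n → Fin n} (hv : Valid B f) : Disjoint (mv f) B := by
  rw [Finset.disjoint_left]
  intro v hv1 hv2
  rw [mv, mem_filter] at hv1
  exact hv1.2 (hv.2 v hv2)

lemma term_bound (hI : StmtIndep) (hg : Good n) {p : ℝ} (hp0 : (10 ^ 4 : ℝ) / n ≤ p) (hp1 : p ≤ 1 / 2)
    {B : Finset (Fin n)} {f : Fin n → Fin n} (hv : Valid B f) (hB : B.card ≤ n / 10) :
    bex p (fun x : Edge n → Bool => if Ev B f x ∧ 0.1 * (p * n * (mv f).card) ≤ (pr x (Em B (mv f)) : ℝ)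
      then 1 else 0) ≤ 3 * Real.exp (-((mv f).card * (Real.log n + 600))) := by
  obtain ⟨hn, hlog, hsq⟩ := hg
  have hnR : (10 ^ 4 : ℝ) ≤ n := by exact_mod_cast hn
  have hn0 : (0:ℝ) < n := by linarith
  have hp : 0 < p := lt_of_lt_of_le (by positivity) hp0
  have hpn : 10 ^ 4 ≤ p * n := by rwa [div_le_iff₀ hn0] at hp0
  set m : ℝ := ((mv f).card : ℝ) with hm
  have hm0 : 0 ≤ m := Nat.cast_nonneg _
  set Λ := Real.log n with hΛ
  rcases le_or_gt p (1 / Real.sqrt n) with hs | hs
  · -- sparse case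
    have hsq0 : 0 < Real.sqrt n := Real.sqrt_pos.mpr hn0
    have hsq1 : 100 ≤ Real.sqrt n := by
      apply Real.le_sqrt_of_sq_le
      norm_num at hnR ⊢
      exact hnR
    have hp100 : p ≤ 1 / 100 := hs.trans (one_div_le_one_div_of_le (by norm_num) hsq1)
    refine (sparse_bound hI hp hp100 hv (0.1 * (p * n * m))).trans ?_
    refine mul_le_mul_of_nonneg_left ?_ (by norm_num)
    have hθ0 : 0 < 1 / (100 * p) := by positivity
    rw [Real.rpow_def_of_pos hθ0, ← Real.exp_add]
    apply Real.exp_le_exp.mpr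
    have hl : Λ / 4 ≤ Real.log (1 / (100 * p)) := by
      have h1 : Real.sqrt n / 100 ≤ 1 / (100 * p) := by
        rw [div_le_div_iff₀ (by norm_num) (by positivity)]
        rw [le_div_iff₀ hsq0] at hs
        nlinarith
      have h2 := Real.log_le_log (by positivity) h1
      have h3 : Real.log (Real.sqrt n / 100) = Λ / 2 - Real.log 100 := by
        rw [Real.log_div hsq0.ne' (by norm_num), Real.log_sqrt hn0.le]
      have h4 : Real.log 100 ≤ 5 := by
        rw [Real.log_le_iff_le_exp (by norm_num)]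
        have h5 : Real.exp 5 = Real.exp 1 ^ 5 := by
          rw [← Real.exp_nat_mul]; norm_num
        rw [h5]
        have h6 := Real.exp_one_gt_d9
        calc (100:ℝ) ≤ 2.7 ^ 5 := by norm_num
          _ ≤ Real.exp 1 ^ 5 := pow_le_pow_left₀ (by norm_num) (by linarith) 5
      linarith
    have hz : 0.03 * (p * n * m) ≤ (0.1 * (p * n * m) - m) / 3 := by
      have : m ≤ 0.01 * (p * n * m) := by nlinarith
      linarith
    set z := (0.1 * (p * n * m) - m) / 3
    have hpnm : 0 ≤ p * n * m := by positivity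
    have e1 : 0.03 * (p * n * m) * (Λ / 4) ≤ Real.log (1 / (100 * p)) * z := by
      rw [mul_comm (Real.log _)]
      exact mul_le_mul hz hl (by linarith) (by linarith)
    have e2 : Real.log (1 / (100 * p)) * -z + p / 100 * (n * m) ≤
        -(0.03 * (p * n * m) * (Λ / 4)) + p / 100 * (n * m) := by linarith
    refine e2.trans ?_
    have e3 : -(0.03 * (p * n * m) * (Λ / 4)) + p / 100 * (n * m) = -((p * n) * (m * (0.0075 * Λ - 0.01))) := by ring
    rw [e3]
    have e4 : (10 ^ 4 : ℝ) * (m * (0.0075 * Λ - 0.01)) ≤ (p * n) * (m * (0.0075 * Λ - 0.01)) := by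
      refine mul_le_mul_of_nonneg_right hpn (mul_nonneg hm0 (by linarith))
    have e5 : m * (Λ + 600) ≤ (10 ^ 4 : ℝ) * (m * (0.0075 * Λ - 0.01)) := by
      have : 0 ≤ m * (74 * Λ - 700) := mul_nonneg hm0 (by linarith)
      linarith
    linarith
  · -- dense case
    have h1 : bex p (fun x : Edge n → Bool => if Ev B f x ∧ 0.1 * (p * n * m) ≤ (pr x (Em B (mv f)) : ℝ)
      then 1 else 0) ≤ bex p (fun x : Edge n → Bool => if Ev B f x then 1 else 0) := by
      refine bex_mono hp.le (by linarith) fun x => ?_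
      by_cases h : Ev B f x
      · rw [if_pos h]; split_ifs <;> norm_num
      · rw [if_neg h, if_neg fun h2 => h h2.1]
    refine h1.trans ((dense_bound hI hp.le hp1 hv).trans ?_)
    have h2 := em_real B (mv f) (mv_disj hv) hB (by omega)
    have h3 : Real.exp (-(p * (((Em B (mv f)).card : ℝ) - (mv f).card) / 3)) ≤
        Real.exp (-(m * (Λ + 600))) := by
      apply Real.exp_le_exp.mpr
      have h4 : 0.3 * n * m ≤ ((Em B (mv f)).card : ℝ) - (mv f).card := by
        rw [← hm] at h2 ⊢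
        have : m ≤ 0.1 * n * m := by nlinarith
        linarith
      have h5 : p * (0.3 * n * m) ≤ p * (((Em B (mv f)).card : ℝ) - (mv f).card) :=
        mul_le_mul_of_nonneg_left h4 hp.le
      have h6 : Real.sqrt n ≤ p * n := by
        have hsq0 : 0 < Real.sqrt n := Real.sqrt_pos.mpr hn0
        have h7 : 1 / Real.sqrt n * n ≤ p * n := mul_le_mul_of_nonneg_right hs.le hn0.le
        have h8 : 1 / Real.sqrt n * n = Real.sqrt n := by
          rw [one_div, inv_mul_eq_div, div_eq_iff hsq0.ne', Real.mul_self_sqrt hn0.le]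
        linarith
      have h9 : m * (Λ + 600) ≤ 0.1 * (p * n * m) := by
        have : 10 * (Λ + 600) ≤ p * n := hsq.trans h6
        nlinarith
      linarith
    have h4 : 0 ≤ Real.exp (-(m * (Λ + 600))) := (Real.exp_pos _).le
    linarith

/-- the typical event -/
def Ty (n t : ℕ) (p : ℝ) (x : Edge n → Bool) : Prop := ∀ B M : Finset (Fin n), B.card ≤ n / 10 →
  Disjoint M B → t ≤ M.card → 0.1 * (p * n * M.card) ≤ (pr x (Em B M) : ℝ)

lemma Ty_bound (hL : StmtLower) (hn : 10 ≤ n) {p : ℝ} (hp0 : (10 ^ 4 : ℝ) / n ≤ p) (hp1 : p ≤ 1 / 2)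
    (t : ℕ) (ht : (n:ℝ) ≤ 250 * t) :
    bex p (fun x : Edge n → Bool => if ¬ Ty n t p x then 1 else 0) ≤ Real.exp (-(3 * n)) := by
  have hn0 : (0:ℝ) < n := by exact_mod_cast (by omega : 0 < n)
  have hp : 0 < p := lt_of_lt_of_le (by positivity) hp0
  have hpn : 10 ^ 4 ≤ p * n := by rwa [div_le_iff₀ hn0] at hp0
  have h1 : bex p (fun x : Edge n → Bool => if ¬ Ty n t p x then 1 else 0) ≤
      bex p (fun x : Edge n → Bool => ∑ B : Finset (Fin n), ∑ M : Finset (Fin n),
        if (B.card ≤ n / 10 ∧ Disjoint M B ∧ t ≤ M.card) ∧ (pr x (Em B M) : ℝ) ≤ 0.1 * (p * n * M.card)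
          then 1 else 0) := by
    refine bex_mono hp.le (by linarith) fun x => ?_
    have hnn : ∀ B M : Finset (Fin n), (0:ℝ) ≤ if (B.card ≤ n / 10 ∧ Disjoint M B ∧ t ≤ M.card) ∧
        (pr x (Em B M) : ℝ) ≤ 0.1 * (p * n * M.card) then 1 else 0 := by
      intro B M; split_ifs <;> norm_num
    by_cases h : Ty n t p x
    · rw [if_neg (not_not.mpr h)]
      exact Finset.sum_nonneg fun B _ => Finset.sum_nonneg fun M _ => hnn B M
    · rw [if_pos h]
      unfold Ty at h
      push Not at h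
      obtain ⟨B, M, hB, hM, ht', h2⟩ := h
      refine le_trans ?_ (Finset.single_le_sum (fun B _ => Finset.sum_nonneg fun M _ => hnn B M) (mem_univ B))
      refine le_trans ?_ (Finset.single_le_sum (fun M _ => hnn B M) (mem_univ M))
      rw [if_pos ⟨⟨hB, hM, ht'⟩, h2.le⟩]
  have h2 : bex p (fun x : Edge n → Bool => ∑ B : Finset (Fin n), ∑ M : Finset (Fin n),
        if (B.card ≤ n / 10 ∧ Disjoint M B ∧ t ≤ M.card) ∧ (pr x (Em B M) : ℝ) ≤ 0.1 * (p * n * M.card)
          then (1:ℝ) else 0) = ∑ B : Finset (Fin n), ∑ M : Finset (Fin n),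
        bex p (fun x : Edge n → Bool => if (B.card ≤ n / 10 ∧ Disjoint M B ∧ t ≤ M.card) ∧
          (pr x (Em B M) : ℝ) ≤ 0.1 * (p * n * M.card) then (1:ℝ) else 0) := by
    unfold bex
    simp only [Finset.mul_sum]
    rw [Finset.sum_comm]
    refine Finset.sum_congr rfl fun B _ => ?_
    rw [Finset.sum_comm]
  have h3 : ∀ B M : Finset (Fin n), bex p (fun x : Edge n → Bool => if (B.card ≤ n / 10 ∧ Disjoint M B ∧ t ≤ M.card) ∧
          (pr x (Em B M) : ℝ) ≤ 0.1 * (p * n * M.card) then (1:ℝ) else 0) ≤ Real.exp (-(5.2 * n)) := by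
    intro B M
    by_cases hc : B.card ≤ n / 10 ∧ Disjoint M B ∧ t ≤ M.card
    · obtain ⟨hB, hM, htM⟩ := hc
      have h4 := hL (Edge n) inferInstance inferInstance p hp.le (by linarith) (Em B M)
        (0.1 * (p * n * M.card)) (1 / 2) (by norm_num) (by norm_num)
      have h5 : bex p (fun x : Edge n → Bool => if (B.card ≤ n / 10 ∧ Disjoint M B ∧ t ≤ M.card) ∧
          (pr x (Em B M) : ℝ) ≤ 0.1 * (p * n * M.card) then (1:ℝ) else 0) ≤
          bex p (fun x : Edge n → Bool => if (((Em B M).filter fun e => x e = true).card : ℝ) ≤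
            0.1 * (p * n * M.card) then 1 else 0) := by
        refine bex_mono hp.le (by linarith) fun x => ?_
        by_cases h6 : (pr x (Em B M) : ℝ) ≤ 0.1 * (p * n * M.card)
        · rw [if_pos (show (((Em B M).filter fun e => x e = true).card : ℝ) ≤
            0.1 * (p * n * M.card) from h6)]
          split_ifs <;> norm_num
        · rw [if_neg fun h7 => h6 h7.2]
          split_ifs <;> norm_num
      refine h5.trans (h4.trans ?_)
      have h6 := em_real B M hM hB hn
      rw [Real.rpow_def_of_pos (by norm_num), ← Real.exp_add]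
      apply Real.exp_le_exp.mpr
      have h7 : Real.log (1 / 2) = - Real.log 2 := by rw [one_div, Real.log_inv]
      have h8 := Real.log_two_lt_d9
      have h9 := Real.log_two_gt_d9
      rw [h7]
      set m : ℝ := (M.card : ℝ) with hm
      have hm0 : 0 ≤ m := Nat.cast_nonneg _
      have hmt : (n:ℝ) ≤ 250 * m := by
        have : (t:ℝ) ≤ m := by rw [hm]; exact_mod_cast htM
        linarith
      have hpnm : 0 ≤ p * n * m := by positivity
      have k1 : -Real.log 2 * -(0.1 * (p * n * m)) ≤ 0.07 * (p * n * m) := by nlinarith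
      have k2 : 0.2 * (p * n * m) ≤ (1 - 1 / 2) * p * ((Em B M).card : ℝ) := by
        have : p * (0.4 * n * m) ≤ p * ((Em B M).card : ℝ) := mul_le_mul_of_nonneg_left h6 hp.le
        linarith
      have k3 : (10 ^ 4 : ℝ) * m ≤ p * n * m := mul_le_mul_of_nonneg_right hpn hm0
      linarith
    · have h4 : (fun x : Edge n → Bool => if (B.card ≤ n / 10 ∧ Disjoint M B ∧ t ≤ M.card) ∧
          (pr x (Em B M) : ℝ) ≤ 0.1 * (p * n * M.card) then (1:ℝ) else 0) = fun _ => 0 := by
        funext x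
        rw [if_neg fun h5 => hc h5.1]
      rw [h4, bex_const]
      exact (Real.exp_pos _).le
  refine h1.trans (h2.le.trans ((Finset.sum_le_sum fun B _ => Finset.sum_le_sum fun M _ => h3 B M).trans ?_))
  rw [sum_const, sum_const, card_univ, Fintype.card_finset, Fintype.card_fin, nsmul_eq_mul, nsmul_eq_mul]
  push_cast
  have h4 : (2:ℝ) ^ n ≤ Real.exp (0.7 * n) := by
    have h5 : (2:ℝ) ≤ Real.exp 0.7 := by
      have h8 := Real.log_two_lt_d9
      calc (2:ℝ) = Real.exp (Real.log 2) := (Real.exp_log (by norm_num)).symm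
        _ ≤ Real.exp 0.7 := Real.exp_le_exp.mpr (by linarith)
    calc (2:ℝ) ^ n ≤ Real.exp 0.7 ^ n := pow_le_pow_left₀ (by norm_num) h5 n
      _ = Real.exp (0.7 * n) := by rw [← Real.exp_nat_mul]; ring_nf
  calc (2:ℝ) ^ n * (2 ^ n * Real.exp (-(5.2 * n))) ≤
        Real.exp (0.7 * n) * (Real.exp (0.7 * n) * Real.exp (-(5.2 * n))) := by
        refine mul_le_mul h4 ?_ (by positivity) (Real.exp_pos _).le
        exact mul_le_mul_of_nonneg_right h4 (Real.exp_pos _).le
    _ = Real.exp (-(3.8 * n)) := by rw [← Real.exp_add, ← Real.exp_add]; ring_nf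
    _ ≤ Real.exp (-(3 * n)) := Real.exp_le_exp.mpr (by linarith)

end R978UI.C
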