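import Pool.Agent.R662.UC.C3

/-!
UI-C of MP_52097a_pr: conclusion.
-/

set_option autoImplicit false

namespace R978UI.C

open Finset Pool.Agent.R980
open scoped Classical

variable {n : ℕ}

lemma two_pow_le (n : ℕ) : (2:ℝ) ^ n ≤ Real.exp (0.7 * n) := by
  have h5 : (2:ℝ) ≤ Real.exp 0.7 := by
    have h8 := Real.log_two_lt_d9
    calc (2:ℝ) = Real.exp (Real.log 2) := (Real.exp_log (by norm_num)).symm
      _ ≤ Real.exp 0.7 := Real.exp_le_exp.mpr (by linarith)
  calc (2:ℝ) ^ n ≤ Real.exp 0.7 ^ n := pow_le_pow_left₀ (by norm_num) h5 n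
    _ = Real.exp (0.7 * n) := by rw [← Real.exp_nat_mul]; ring_nf

/-- the bad event for maps -/
def Bad (t : ℕ) (x : Edge n → Bool) : Prop := ∃ B : Finset (Fin n), ∃ f : Fin n → Fin n,
  B.card ≤ n / 10 ∧ Valid B f ∧ t ≤ (mv f).card ∧ Ev B f x

lemma bad_bound (hI : StmtIndep) (hL : StmtLower) (hg : Good n) {p : ℝ} (hp0 : (10 ^ 4 : ℝ) / n ≤ p)
    (hp1 : p ≤ 1 / 2) (t : ℕ) (ht : (n:ℝ) ≤ 250 * t) :
    bex p (fun x : Edge n → Bool => if Bad t x then 1 else 0) ≤ 4 * Real.exp (-n) := by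
  have hn : 10 ≤ n := by have := hg.1; omega
  have hn0 : (0:ℝ) < n := by exact_mod_cast (by omega : 0 < n)
  have hp : 0 < p := lt_of_lt_of_le (by positivity) hp0
  have h1 : bex p (fun x : Edge n → Bool => if Bad t x then 1 else 0) ≤
      bex p (fun x : Edge n → Bool => (if ¬ Ty n t p x then 1 else 0) +
        ∑ B : Finset (Fin n), ∑ f : Fin n → Fin n,
        if (B.card ≤ n / 10 ∧ Valid B f ∧ t ≤ (mv f).card) ∧
          (Ev B f x ∧ 0.1 * (p * n * (mv f).card) ≤ (pr x (Em B (mv f)) : ℝ)) then 1 else 0) := by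
    refine bex_mono hp.le (by linarith) fun x => ?_
    have hnn : ∀ (B : Finset (Fin n)) (f : Fin n → Fin n), (0:ℝ) ≤
        if (B.card ≤ n / 10 ∧ Valid B f ∧ t ≤ (mv f).card) ∧
          (Ev B f x ∧ 0.1 * (p * n * (mv f).card) ≤ (pr x (Em B (mv f)) : ℝ)) then 1 else 0 := by
      intro B M; split_ifs <;> norm_num
    have hS : (0:ℝ) ≤ ∑ B : Finset (Fin n), ∑ f : Fin n → Fin n,
        if (B.card ≤ n / 10 ∧ Valid B f ∧ t ≤ (mv f).card) ∧
          (Ev B f x ∧ 0.1 * (p * n * (mv f).card) ≤ (pr x (Em B (mv f)) : ℝ)) then 1 else 0 :=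
      Finset.sum_nonneg fun B _ => Finset.sum_nonneg fun M _ => hnn B M
    have hT : (0:ℝ) ≤ if ¬ Ty n t p x then 1 else 0 := by split_ifs <;> norm_num
    by_cases h : Bad t x
    · rw [if_pos h]
      by_cases hty : Ty n t p x
      · obtain ⟨B, f, hB, hv, hm, he⟩ := h
        have h2 := hty B (mv f) hB (mv_disj hv) hm
        have h3 : (1:ℝ) ≤ ∑ B : Finset (Fin n), ∑ f : Fin n → Fin n,
            if (B.card ≤ n / 10 ∧ Valid B f ∧ t ≤ (mv f).card) ∧
              (Ev B f x ∧ 0.1 * (p * n * (mv f).card) ≤ (pr x (Em B (mv f)) : ℝ)) then 1 else 0 := by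
          refine le_trans ?_ (Finset.single_le_sum (fun B _ => Finset.sum_nonneg fun M _ => hnn B M)
            (mem_univ B))
          refine le_trans ?_ (Finset.single_le_sum (fun M _ => hnn B M) (mem_univ f))
          rw [if_pos ⟨⟨hB, hv, hm⟩, he, h2⟩]
        linarith
      · rw [if_pos hty]
        linarith
    · rw [if_neg h]
      linarith
  have h2 : bex p (fun x : Edge n → Bool => ∑ B : Finset (Fin n), ∑ f : Fin n → Fin n,
        if (B.card ≤ n / 10 ∧ Valid B f ∧ t ≤ (mv f).card) ∧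
          (Ev B f x ∧ 0.1 * (p * n * (mv f).card) ≤ (pr x (Em B (mv f)) : ℝ)) then (1:ℝ) else 0) =
      ∑ B : Finset (Fin n), ∑ f : Fin n → Fin n, bex p (fun x : Edge n → Bool =>
        if (B.card ≤ n / 10 ∧ Valid B f ∧ t ≤ (mv f).card) ∧
          (Ev B f x ∧ 0.1 * (p * n * (mv f).card) ≤ (pr x (Em B (mv f)) : ℝ)) then (1:ℝ) else 0) := by
    unfold bex
    simp only [Finset.mul_sum]
    rw [Finset.sum_comm]
    refine Finset.sum_congr rfl fun B _ => ?_
    rw [Finset.sum_comm]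
  have h3 : ∀ (B : Finset (Fin n)) (f : Fin n → Fin n), bex p (fun x : Edge n → Bool =>
        if (B.card ≤ n / 10 ∧ Valid B f ∧ t ≤ (mv f).card) ∧
          (Ev B f x ∧ 0.1 * (p * n * (mv f).card) ≤ (pr x (Em B (mv f)) : ℝ)) then (1:ℝ) else 0) ≤
      3 * Real.exp (-(2.4 * n)) * ((n:ℝ)⁻¹) ^ (univ.filter fun v => f v ≠ v).card := by
    intro B f
    by_cases hc : B.card ≤ n / 10 ∧ Valid B f ∧ t ≤ (mv f).card
    · obtain ⟨hB, hv, hm⟩ := hc
      have h4 := term_bound hI hg hp0 hp1 hv hB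
      refine le_trans (bex_mono hp.le (by linarith) fun x => ?_) (h4.trans ?_)
      · by_cases h5 : Ev B f x ∧ 0.1 * (p * n * (mv f).card) ≤ (pr x (Em B (mv f)) : ℝ)
        · rw [if_pos h5, if_pos ⟨⟨hB, hv, hm⟩, h5⟩]
        · rw [if_neg h5, if_neg fun h6 => h5 h6.2]
      · have h5 : ((n:ℝ)⁻¹) ^ (univ.filter fun v => f v ≠ v).card =
            Real.exp (-((mv f).card * Real.log n)) := by
          change ((n:ℝ)⁻¹) ^ (mv f).card = _
          rw [← mul_neg, Real.exp_nat_mul, Real.exp_neg, Real.exp_log hn0]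
        rw [h5, mul_assoc, ← Real.exp_add]
        refine mul_le_mul_of_nonneg_left (Real.exp_le_exp.mpr ?_) (by norm_num)
        have h6 : (n:ℝ) ≤ 250 * (mv f).card := by
          have : (t:ℝ) ≤ ((mv f).card : ℝ) := by exact_mod_cast hm
          linarith
        linarith
    · have h4 : (fun x : Edge n → Bool => if (B.card ≤ n / 10 ∧ Valid B f ∧ t ≤ (mv f).card) ∧
          (Ev B f x ∧ 0.1 * (p * n * (mv f).card) ≤ (pr x (Em B (mv f)) : ℝ)) then (1:ℝ) else 0) =
          fun _ => 0 := by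
        funext x
        rw [if_neg fun h5 => hc h5.1]
      rw [h4, bex_const]
      positivity
  refine h1.trans ?_
  rw [bex_add, h2]
  have h4 := Ty_bound hL hn hp0 hp1 t ht
  have h5 : ∑ B : Finset (Fin n), ∑ f : Fin n → Fin n, bex p (fun x : Edge n → Bool =>
        if (B.card ≤ n / 10 ∧ Valid B f ∧ t ≤ (mv f).card) ∧
          (Ev B f x ∧ 0.1 * (p * n * (mv f).card) ≤ (pr x (Em B (mv f)) : ℝ)) then (1:ℝ) else 0) ≤
      3 * Real.exp (-n) := by
    refine (Finset.sum_le_sum fun B _ => Finset.sum_le_sum fun f _ => h3 B f).trans ?_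
    simp only [← Finset.mul_sum]
    rw [sum_const, card_univ, Fintype.card_finset, Fintype.card_fin, nsmul_eq_mul]
    push_cast
    have h6 := sum_maps n (by omega)
    have h7 := two_pow_le n
    have h8 : (2:ℝ) ^ n * (3 * Real.exp (-(2.4 * n)) * ∑ f : Fin n → Fin n,
        ((n:ℝ)⁻¹) ^ (univ.filter fun v => f v ≠ v).card) ≤
        Real.exp (0.7 * n) * (3 * Real.exp (-(2.4 * n)) * Real.exp (0.7 * n)) := by
      refine mul_le_mul h7 ?_ ?_ (Real.exp_pos _).le
      · exact mul_le_mul_of_nonneg_left (h6.trans h7) (by positivity)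
      · refine mul_nonneg (by positivity) (Finset.sum_nonneg fun f _ => by positivity)
    refine le_trans (le_of_eq (by ring)) (h8.trans ?_)
    have h9 : Real.exp (0.7 * n) * (3 * Real.exp (-(2.4 * n)) * Real.exp (0.7 * n)) =
        3 * Real.exp (-n) := by
      rw [show Real.exp (0.7 * n) * (3 * Real.exp (-(2.4 * n)) * Real.exp (0.7 * n)) =
        3 * (Real.exp (0.7 * n) * Real.exp (-(2.4 * n)) * Real.exp (0.7 * n)) by ring,
        ← Real.exp_add, ← Real.exp_add]
      congr 2; ring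
    exact h9.le
  have h6 : Real.exp (-(3 * n)) ≤ Real.exp (-n) := Real.exp_le_exp.mpr (by linarith)
  linarith

/-- isomorphic deletions give a map -/
lemma iso_map (x : Edge n → Bool) (B B' : Finset (Fin n)) (h : (isoSetoid (ofBool x)).r Bᶜ B'ᶜ) :
    ∃ f : Fin n → Fin n, Valid B f ∧ B' \ B ⊆ mv f ∧ Ev B f x := by
  obtain ⟨σ⟩ := h
  set f : Fin n → Fin n := fun v => if hv : v ∈ Bᶜ then (σ ⟨v, by exact_mod_cast hv⟩).1 else v with hf
  have hf1 : ∀ v (hv : v ∈ Bᶜ), f v = (σ ⟨v, by exact_mod_cast hv⟩).1 := by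
    intro v hv
    simp only [hf]
    rw [dif_pos hv]
  have hv : Valid B f := by
    constructor
    · intro u v hu hv h
      rw [hf1 u (mem_compl.mpr hu), hf1 v (mem_compl.mpr hv)] at h
      have h2 := σ.injective (Subtype.ext h)
      exact congrArg Subtype.val h2
    · intro v hv
      simp only [hf]
      rw [dif_neg]
      rw [mem_compl, not_not]
      exact hv
  refine ⟨f, hv, ?_, ?_⟩
  · intro v hv2
    rw [mem_sdiff] at hv2
    rw [mv, mem_filter]
    refine ⟨mem_univ _, fun h2 => ?_⟩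
    rw [hf1 v (mem_compl.mpr hv2.2)] at h2
    have h3 := (σ ⟨v, by exact_mod_cast mem_compl.mpr hv2.2⟩).2
    rw [h2] at h3
    rw [mem_coe, mem_compl] at h3
    exact h3 hv2.1
  · intro e he
    obtain ⟨a, b, hab, rfl⟩ := edge_ind e
    simp only [Sym2.mem_iff, forall_eq_or_imp, forall_eq] at he
    have h2 := Fe_mk hv hab he.1 he.2
    have h3 : x ⟨s(a, b), mk_edge hab⟩ = true ↔ x (Fe f ⟨s(a, b), mk_edge hab⟩) = true := by
      rw [← mem_ofBool, ← mem_ofBool, h2, SimpleGraph.mem_edgeSet, SimpleGraph.mem_edgeSet,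
        hf1 a (mem_compl.mpr he.1), hf1 b (mem_compl.mpr he.2)]
      have h4 := σ.map_rel_iff (a := ⟨a, by exact_mod_cast mem_compl.mpr he.1⟩)
        (b := ⟨b, by exact_mod_cast mem_compl.mpr he.2⟩)
      exact h4.symm
    exact Bool.eq_iff_iff.mpr h3

/-- few coincidences give many unlabeled subgraphs -/
lemma many (hF : StmtFibre) (G : SimpleGraph (Fin n)) (A : Finset (Fin n)) (t : ℕ)
    (h : ∀ B ⊆ A, ∀ B' ⊆ A, (isoSetoid G).r Bᶜ B'ᶜ → (B' \ B).card < t) :
    (2:ℝ) ^ A.card ≤ U G * ((5 / 4) ^ A.card * 4 ^ (2 * (t - 1))) := by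
  set F : Finset (Finset (Fin n)) := A.powerset.image compl with hFd
  have hFc : F.card = 2 ^ A.card := by
    rw [hFd, card_image_of_injective _ compl_injective, card_powerset]
  have h1 := hF n G F ((A.powerset.filter fun D => D.card ≤ 2 * (t - 1)).card) ?_
  · rw [hFc] at h1
    have h2 : ((2 ^ A.card : ℕ) : ℝ) ≤ ((U G * (A.powerset.filter fun D => D.card ≤ 2 * (t - 1)).card : ℕ) : ℝ) := by
      exact_mod_cast h1
    push_cast at h2
    refine h2.trans (mul_le_mul_of_nonneg_left ?_ (Nat.cast_nonneg _))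
    have h3 := ball_card A (2 * (t - 1))
    convert h3
  · intro S hS
    rw [hFd, mem_image] at hS
    obtain ⟨B, hB, rfl⟩ := hS
    rw [mem_powerset] at hB
    refine Finset.card_le_card_of_injOn (fun T => symmDiff B Tᶜ) ?_ ?_
    · intro T hT
      rw [mem_coe, mem_filter, hFd, mem_image] at hT
      obtain ⟨⟨B', hB', rfl⟩, hr⟩ := hT
      rw [mem_powerset] at hB'
      simp only [compl_compl, coe_filter, mem_powerset, Set.mem_ofPred_eq]
      have h2 := h B hB B' hB' hr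
      have h3 := h B' hB' B hB ((isoSetoid G).iseqv.symm hr)
      constructor
      · rw [symmDiff_def, sup_eq_union]
        exact union_subset (sdiff_subset.trans hB) (sdiff_subset.trans hB')
      · rw [symmDiff_def, sup_eq_union]
        refine (card_union_le _ _).trans ?_
        have h4 : (B \ B').card ≤ t - 1 := by omega
        have h5 : (B' \ B).card ≤ t - 1 := by omega
        omega
    · intro T _ T' _ hTT
      simp only at hTT
      have := symmDiff_right_injective B hTT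
      exact compl_injective this

theorem stmtC (hI : StmtIndep) (hL : StmtLower) (hF : StmtFibre) : StmtC := by
  refine ⟨10 ^ 4, 1 / 50, by norm_num, by norm_num, fun η hη => ?_⟩
  have e1 : ∀ᶠ n : ℕ in Filter.atTop, 10 ^ 4 ≤ n := Filter.eventually_ge_atTop _
  have e2 : ∀ᶠ n : ℕ in Filter.atTop, 20 ≤ Real.log n :=
    (Real.tendsto_log_atTop.comp tendsto_natCast_atTop_atTop).eventually_ge_atTop 20
  have e3 : ∀ᶠ n : ℕ in Filter.atTop, 10 * (Real.log n + 600) ≤ Real.sqrt n := by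
    have h1 : ∀ᶠ y : ℝ in Filter.atTop, ‖Real.log y‖ ≤ (1 / 20) * ‖y ^ (1 / 2 : ℝ)‖ :=
      (isLittleO_log_rpow_atTop (by norm_num : (0:ℝ) < 1 / 2)).bound (by norm_num)
    have h2 : ∀ᶠ y : ℝ in Filter.atTop, 12000 ^ 2 ≤ y := Filter.eventually_ge_atTop _
    have h3 := (tendsto_natCast_atTop_atTop (R := ℝ)).eventually (h1.and h2)
    filter_upwards [h3] with n hn
    obtain ⟨k1, k2⟩ := hn
    rw [← Real.sqrt_eq_rpow, Real.norm_eq_abs, Real.norm_eq_abs, abs_of_nonneg (Real.sqrt_nonneg _)] at k1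
    have k3 : 12000 ≤ Real.sqrt n := Real.le_sqrt_of_sq_le k2
    have k4 := le_abs_self (Real.log n)
    linarith
  have e4 : ∀ᶠ n : ℕ in Filter.atTop, 4 * Real.exp (-n) ≤ η := by
    have h1 : Filter.Tendsto (fun n : ℕ => 4 * Real.exp (-(n:ℝ))) Filter.atTop (nhds (4 * 0)) :=
      ((Real.tendsto_exp_neg_atTop_nhds_zero.comp tendsto_natCast_atTop_atTop).const_mul 4)
    rw [mul_zero] at h1
    exact h1.eventually_le_const hη
  obtain ⟨N, hN⟩ := Filter.eventually_atTop.mp (e1.and (e2.and (e3.and e4)))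
  refine ⟨N, fun n hn p hp0 hp1 => ?_⟩
  obtain ⟨k1, k2, k3, k4⟩ := hN n hn
  have hg : Good n := ⟨k1, k2, k3⟩
  have hn0 : (0:ℝ) < n := by exact_mod_cast (by omega : 0 < n)
  have hp : 0 < p := lt_of_lt_of_le (by positivity) hp0
  set t : ℕ := n / 250 + 1 with ht
  have ht1 : (n:ℝ) ≤ 250 * t := by
    have : n ≤ 250 * t := by omega
    exact_mod_cast this
  refine le_trans ?_ ((bad_bound hI hL hg hp0 hp1 t ht1).trans k4)
  rw [gnp_eq_bex]
  refine bex_mono hp.le (by linarith) fun x => ?_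
  by_cases hbad : Bad t x
  · rw [if_pos hbad]; split_ifs <;> norm_num
  · rw [if_neg hbad, if_neg]
    rw [not_lt]
    obtain ⟨A, _, hA⟩ := Finset.exists_subset_card_eq (s := (univ : Finset (Fin n))) (n := n / 10)
      (by rw [card_univ, Fintype.card_fin]; omega)
    have h1 := many hF (ofBool x) A t ?_
    · rw [hA] at h1
      set a := n / 10 with ha
      have h2 : (2:ℝ) ^ a ≤ U (ofBool x) * ((5 / 4) ^ a * 4 ^ (2 * (t - 1))) := h1
      have h3 : ((8:ℝ) / 5) ^ a ≤ U (ofBool x) * 4 ^ (2 * (t - 1)) := by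
        have h4 : (0:ℝ) < (5 / 4) ^ a := by positivity
        have h5 : ((8:ℝ) / 5) ^ a * (5 / 4) ^ a = 2 ^ a := by rw [← mul_pow]; norm_num
        have h6 : ((8:ℝ) / 5) ^ a * (5 / 4) ^ a ≤ (U (ofBool x) * 4 ^ (2 * (t - 1))) * (5 / 4) ^ a := by
          rw [h5]; linarith
        exact le_of_mul_le_mul_right h6 h4
      have h7 : (2:ℝ) ^ (a / 2) ≤ (8 / 5) ^ a := by
        calc (2:ℝ) ^ (a / 2) ≤ ((8 / 5) ^ 2) ^ (a / 2) := pow_le_pow_left₀ (by norm_num) (by norm_num) _
          _ = (8 / 5) ^ (2 * (a / 2)) := by rw [← pow_mul]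
          _ ≤ (8 / 5) ^ a := pow_le_pow_right₀ (by norm_num) (by omega)
      have h8 : (4:ℝ) ^ (2 * (t - 1)) = 2 ^ (4 * (t - 1)) := by
        rw [show (4:ℝ) = 2 ^ 2 by norm_num, ← pow_mul]; ring_nf
      have h9 : (2:ℝ) ^ (a / 2 - 4 * (t - 1)) ≤ U (ofBool x) := by
        have h10 : (2:ℝ) ^ (a / 2 - 4 * (t - 1)) * 2 ^ (4 * (t - 1)) ≤
            U (ofBool x) * 2 ^ (4 * (t - 1)) := by
          rw [← pow_add, show a / 2 - 4 * (t - 1) + 4 * (t - 1) = a / 2 by omega, ← h8]
          exact h7.trans h3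
        exact le_of_mul_le_mul_right h10 (by positivity)
      refine le_trans ?_ h9
      rw [← Real.rpow_natCast 2 (a / 2 - 4 * (t - 1))]
      apply Real.rpow_le_rpow_of_exponent_le (by norm_num)
      have h11 : n ≤ 50 * (a / 2 - 4 * (t - 1)) := by omega
      have h12 : (n:ℝ) ≤ 50 * ((a / 2 - 4 * (t - 1) : ℕ) : ℝ) := by exact_mod_cast h11
      linarith
    · intro B hB B' hB' hr
      obtain ⟨f, hv, hm, he⟩ := iso_map x B B' hr
      by_contra hcon
      rw [not_lt] at hcon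
      exact hbad ⟨B, f, (card_le_card hB).trans hA.le, hv, hcon.trans (card_le_card hm), he⟩

end R978UI.C
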